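import Pool.Agent.Helper33.RSK.Most

/-! Helper33: 99 percent additive functions are close to linear ones. -/

namespace Pool.Agent.Helper33.RSK

open Finset
open scoped Classical

universe u

variable {E : Type u} [NormedAddCommGroup E] [NormedSpace ℝ E]

/-- Hyers on an interval -/
theorem hyers_interval (M : ℕ) (hM : 0 < M) (v : ℕ → E) (η : ℝ)
    (h : ∀ d e, d + e ≤ M → ‖v (d + e) - v d - v e‖ ≤ η) :
    ∀ d ≤ M, ‖v d - (d : ℝ) • ((M : ℝ)⁻¹ • v M)‖ ≤ 3 * η := by
  have hMr : (M : ℝ) ≠ 0 := by positivity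
  obtain ⟨d0, hd0, hmax⟩ := Finset.exists_max_image (range (M + 1))
    (fun d => ‖v d - (d : ℝ) • ((M : ℝ)⁻¹ • v M)‖) ⟨0, by simp⟩
  have hη : 0 ≤ η := le_trans (norm_nonneg _) (h 0 0 (by omega))
  set g : ℕ → E := fun d => v d - (d : ℝ) • ((M : ℝ)⁻¹ • v M) with hg
  have hgadd : ∀ d e, d + e ≤ M → ‖g (d + e) - g d - g e‖ ≤ η := by
    intro d e hde
    have : g (d + e) - g d - g e = v (d + e) - v d - v e := by
      simp only [hg]
      push_cast
      module
    rw [this]
    exact h d e hde
  have hgM : g M = 0 := by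
    simp only [hg]
    rw [smul_smul, mul_inv_cancel₀ hMr, one_smul, sub_self]
  have hd0M : d0 ≤ M := by
    rw [mem_range] at hd0
    omega
  have hm : ∀ d ≤ M, ‖g d‖ ≤ ‖g d0‖ := fun d hd => hmax d (by rw [mem_range]; omega)
  have hhalf : ∀ d, 2 * d ≤ M → ‖g d‖ ≤ (‖g d0‖ + η) / 2 := by
    intro d hd
    have h1 := hgadd d d (by omega)
    have h2 := hm (d + d) (by omega)
    have h3 : (2 : ℝ) • g d = g (d + d) - (g (d + d) - g d - g d) := by
      module
    have h4 : ‖(2 : ℝ) • g d‖ ≤ ‖g (d + d)‖ + ‖g (d + d) - g d - g d‖ := by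
      rw [h3]
      exact norm_sub_le _ _
    rw [norm_smul] at h4
    simp only [Real.norm_ofNat] at h4
    linarith
  have hS : ‖g d0‖ ≤ 3 * η := by
    by_cases hc : 2 * d0 ≤ M
    · have := hhalf d0 hc
      linarith
    · have h1 := hhalf (M - d0) (by omega)
      have h2 := hgadd d0 (M - d0) (by omega)
      have h3 : d0 + (M - d0) = M := by omega
      rw [h3, hgM] at h2
      have h4 : g d0 = -(0 - g d0 - g (M - d0)) - g (M - d0) := by module
      have h5 : ‖g d0‖ ≤ ‖0 - g d0 - g (M - d0)‖ + ‖g (M - d0)‖ := by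
        calc ‖g d0‖ = ‖-(0 - g d0 - g (M - d0)) - g (M - d0)‖ := by rw [← h4]
          _ ≤ ‖-(0 - g d0 - g (M - d0))‖ + ‖g (M - d0)‖ := norm_sub_le _ _
          _ = _ := by rw [norm_neg]
      linarith
  intro d hd
  exact (hm d hd).trans hS

/-- 99 percent additive functions are close to linear functions -/
theorem add_most (K : ℕ) (hK : 3 ≤ K) (N : ℕ) (hN : K ≤ N) (q : ℕ → E) (δ : ℝ)
    (h : Most (range N ×ˢ range N) (1 / (128 * (K : ℝ) ^ 2))
      (fun z => ‖q (z.1 + z.2) - q z.1 - q z.2‖ ≤ δ)) :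
    ∃ lam : E, Most (range N) (3 / K) (fun d => ‖q d - (d : ℝ) • lam‖ ≤ 61 * δ) := by
  have hKr : (3 : ℝ) ≤ K := by exact_mod_cast hK
  have hK0 : (0 : ℝ) < K := by linarith
  have hNr : (3 : ℝ) ≤ N := by exact_mod_cast hK.trans hN
  obtain ⟨L, hL⟩ : ∃ L : ℕ, L = N / K := ⟨_, rfl⟩
  have hL1 : 1 ≤ L := by
    rw [hL]
    exact (Nat.one_le_div_iff (by omega)).mpr hN
  have hLK : L * K ≤ N := by
    rw [hL]
    exact Nat.div_mul_le_self N K
  have hNL : N ≤ (2 * L) * K := by
    have h1 : N < (N / K + 1) * K := by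
      have := Nat.lt_mul_div_succ N (show 0 < K by omega)
      rw [mul_comm] at this
      exact this
    rw [← hL] at h1
    nlinarith
  have hL0 : (0 : ℝ) < L := by exact_mod_cast hL1
  have hLKr : (L : ℝ) * K ≤ N := by exact_mod_cast hLK
  have hNLr : (N : ℝ) ≤ 2 * L * K := by exact_mod_cast hNL
  have hL3 : 3 * L ≤ N := by nlinarith
  set φ : ℕ → ℕ → E := fun d y => q (y + d) - q y with hφ
  obtain ⟨S, hS, hSc⟩ := h
  rw [card_product, card_range] at hSc
  push_cast at hSc
  have hSL : (S.card : ℝ) ≤ L ^ 2 / 32 := by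
    have h1 : (N : ℝ) * N ≤ (2 * L * K) * (2 * L * K) := by
      gcongr
    calc (S.card : ℝ) ≤ 1 / (128 * (K : ℝ) ^ 2) * (N * N) := hSc
      _ ≤ 1 / (128 * (K : ℝ) ^ 2) * ((2 * L * K) * (2 * L * K)) := by gcongr
      _ = L ^ 2 / 32 := by
        field_simp
        ring
  -- step 1
  have step1 : ∀ d e, d + e + 2 * L ≤ N →
      Most (Ico e (e + L) ×ˢ Ico (N - L - d) (N - d)) (1 / 4 * (1 / 4))
        (fun z => ‖φ d z.2 - φ d z.1‖ ≤ 2 * δ) := by
    intro d e hde
    refine ⟨((Ico e (e + L) ×ˢ Ico (N - L - d) (N - d)).filter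
      (fun z => (z.1, z.2 - z.1) ∈ S)) ∪ ((Ico e (e + L) ×ˢ Ico (N - L - d) (N - d)).filter
      (fun z => (z.1 + d, z.2 - z.1) ∈ S)), ?_, ?_⟩
    · rintro ⟨y, u⟩ hz hnot
      rw [mem_product, mem_Ico, mem_Ico] at hz
      rw [mem_union, mem_filter, mem_filter]
      by_contra hcon
      push Not at hcon
      have hmem : (y, u) ∈ Ico e (e + L) ×ˢ Ico (N - L - d) (N - d) := by
        rw [mem_product, mem_Ico, mem_Ico]
        exact hz
      obtain ⟨⟨h1, h2⟩, h3, h4⟩ := hz
      have hb1 := hcon.1 hmem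
      have hb2 := hcon.2 hmem
      simp only at h1 h2 h3 h4 hb1 hb2
      have g1 : ‖q (y + (u - y)) - q y - q (u - y)‖ ≤ δ := by
        by_contra hc
        apply hb1
        apply hS _ _ hc
        rw [mem_product, mem_range, mem_range]
        constructor
        · change y < N
          omega
        · change u - y < N
          omega
      have g2 : ‖q (y + d + (u - y)) - q (y + d) - q (u - y)‖ ≤ δ := by
        by_contra hc
        apply hb2
        apply hS _ _ hc
        rw [mem_product, mem_range, mem_range]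
        constructor
        · change y + d < N
          omega
        · change u - y < N
          omega
      apply hnot
      have e1 : y + (u - y) = u := by omega
      have e2 : y + d + (u - y) = u + d := by omega
      rw [e1] at g1
      rw [e2] at g2
      change ‖(q (u + d) - q u) - (q (y + d) - q y)‖ ≤ 2 * δ
      have e3 : (q (u + d) - q u) - (q (y + d) - q y) =
          (q (u + d) - q (y + d) - q (u - y)) - (q u - q y - q (u - y)) := by abel
      rw [e3]
      calc _ ≤ ‖q (u + d) - q (y + d) - q (u - y)‖ + ‖q u - q y - q (u - y)‖ := norm_sub_le _ _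
        _ ≤ 2 * δ := by linarith
    · have hc1 : (((Ico e (e + L) ×ˢ Ico (N - L - d) (N - d)).filter
          (fun z => (z.1, z.2 - z.1) ∈ S)).card : ℝ) ≤ S.card := by
        have : ((Ico e (e + L) ×ˢ Ico (N - L - d) (N - d)).filter
          (fun z => (z.1, z.2 - z.1) ∈ S)).card ≤ S.card := by
          apply Finset.card_le_card_of_injOn (fun z => (z.1, z.2 - z.1))
          · intro x hx
            have hx' : x ∈ (Ico e (e + L) ×ˢ Ico (N - L - d) (N - d)).filter
              (fun z => (z.1, z.2 - z.1) ∈ S) := hx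
            rw [mem_filter] at hx'
            exact hx'.2
          · intro x hx y hy hxy
            have hx' : x ∈ (Ico e (e + L) ×ˢ Ico (N - L - d) (N - d)).filter
              (fun z => (z.1, z.2 - z.1) ∈ S) := hx
            have hy' : y ∈ (Ico e (e + L) ×ˢ Ico (N - L - d) (N - d)).filter
              (fun z => (z.1, z.2 - z.1) ∈ S) := hy
            rw [mem_filter, mem_product, mem_Ico, mem_Ico] at hx' hy'
            have h5 := Prod.mk.inj hxy
            apply Prod.ext h5.1
            have h6 := h5.2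
            have h7 := h5.1
            omega
        exact_mod_cast this
      have hc2 : (((Ico e (e + L) ×ˢ Ico (N - L - d) (N - d)).filter
          (fun z => (z.1 + d, z.2 - z.1) ∈ S)).card : ℝ) ≤ S.card := by
        have : ((Ico e (e + L) ×ˢ Ico (N - L - d) (N - d)).filter
          (fun z => (z.1 + d, z.2 - z.1) ∈ S)).card ≤ S.card := by
          apply Finset.card_le_card_of_injOn (fun z => (z.1 + d, z.2 - z.1))
          · intro x hx
            have hx' : x ∈ (Ico e (e + L) ×ˢ Ico (N - L - d) (N - d)).filter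
              (fun z => (z.1 + d, z.2 - z.1) ∈ S) := hx
            rw [mem_filter] at hx'
            exact hx'.2
          · intro x hx y hy hxy
            have hx' : x ∈ (Ico e (e + L) ×ˢ Ico (N - L - d) (N - d)).filter
              (fun z => (z.1 + d, z.2 - z.1) ∈ S) := hx
            have hy' : y ∈ (Ico e (e + L) ×ˢ Ico (N - L - d) (N - d)).filter
              (fun z => (z.1 + d, z.2 - z.1) ∈ S) := hy
            rw [mem_filter, mem_product, mem_Ico, mem_Ico] at hx' hy'
            have h5 := Prod.mk.inj hxy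
            have h6 := h5.2
            have h7 := h5.1
            apply Prod.ext
            · omega
            · omega
        exact_mod_cast this
      rw [card_product, Nat.card_Ico, Nat.card_Ico]
      have e1 : e + L - e = L := by omega
      have e2 : N - d - (N - L - d) = L := by omega
      rw [e1, e2]
      push_cast
      calc _ ≤ (((Ico e (e + L) ×ˢ Ico (N - L - d) (N - d)).filter
          (fun z => (z.1, z.2 - z.1) ∈ S)).card : ℝ) +
          (((Ico e (e + L) ×ˢ Ico (N - L - d) (N - d)).filter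
          (fun z => (z.1 + d, z.2 - z.1) ∈ S)).card : ℝ) := by
            exact_mod_cast Finset.card_union_le _ _
        _ ≤ L ^ 2 / 32 + L ^ 2 / 32 := by linarith
        _ = 1 / 4 * (1 / 4) * (L * L) := by ring
  have neA : ∀ e, (Ico e (e + L)).Nonempty := fun e => ⟨e, by rw [mem_Ico]; omega⟩
  have neJ : ∀ d, d + 2 * L ≤ N → (Ico (N - L - d) (N - d)).Nonempty :=
    fun d hd => ⟨N - L - d, by rw [mem_Ico]; omega⟩
  -- steps 2 and 3
  have step3 : ∀ d, ∃ v : E, ∀ e, d + e + 2 * L ≤ N →
      Most (Ico e (e + L)) (1 / 4) (fun y => ‖φ d y - v‖ ≤ 6 * δ) := by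
    intro d
    by_cases hd : d + 2 * L ≤ N
    · have hd0 : d + 0 + 2 * L ≤ N := by omega
      have a1 := (step1 d 0 hd0).fubini' (by norm_num)
      obtain ⟨ud, hud, hud2⟩ := a1.exists (by norm_num) (neJ d hd)
      refine ⟨φ d ud, ?_⟩
      have a2 := (step1 d 0 hd0).fubini (by norm_num)
      obtain ⟨y0, hy0, hy1, hy2⟩ := (hud2.and a2).exists (by norm_num) (neA 0)
      intro e he
      have a3 := (step1 d e he).fubini' (by norm_num)
      obtain ⟨u1, hu1, hu2, hu3⟩ := (hy2.and a3).exists (by norm_num) (neJ d hd)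
      refine hu3.mono le_rfl ?_
      intro y _ hy
      simp only at hu2 hy hy1
      have e4 : φ d y - φ d ud = -(φ d u1 - φ d y) + (φ d u1 - φ d y0) - (φ d ud - φ d y0) := by
        abel
      rw [e4]
      calc _ ≤ ‖-(φ d u1 - φ d y) + (φ d u1 - φ d y0)‖ + ‖φ d ud - φ d y0‖ := norm_sub_le _ _
        _ ≤ ‖-(φ d u1 - φ d y)‖ + ‖φ d u1 - φ d y0‖ + ‖φ d ud - φ d y0‖ := by
          gcongr
          exact norm_add_le _ _
        _ ≤ 6 * δ := by
          rw [norm_neg]
          linarith
    · refine ⟨0, ?_⟩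
      intro e he
      omega
  choose v hv using step3
  -- additivity
  have hadd : ∀ d e, d + e ≤ N - 2 * L → ‖v (d + e) - v d - v e‖ ≤ 18 * δ := by
    intro d e hde
    have b1 := hv (d + e) 0 (by omega)
    have b2 := hv e 0 (by omega)
    have b3 := hv d e (by omega)
    have b3' : Most (Ico 0 (0 + L)) (1 / 4) (fun y => ‖φ d (y + e) - v d‖ ≤ 6 * δ) := by
      refine b3.equiv (fun y => y + e) ?_ ?_ ?_ (by norm_num)
      · intro x hx
        rw [mem_Ico] at hx ⊢
        omega
      · intro x _ y _ hxy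
        simp only at hxy
        omega
      · rw [Nat.card_Ico, Nat.card_Ico]
        omega
    obtain ⟨y, _, ⟨hy1, hy2⟩, hy3⟩ := ((b1.and b2).and b3').exists (by norm_num) (neA 0)
    have e5 : v (d + e) - v d - v e =
        -(φ (d + e) y - v (d + e)) + (φ e y - v e) + (φ d (y + e) - v d) := by
      have : φ (d + e) y = φ e y + φ d (y + e) := by
        simp only [hφ]
        have e6 : y + (d + e) = y + e + d := by omega
        rw [e6]
        abel
      rw [this]
      abel
    rw [e5]
    calc _ ≤ ‖-(φ (d + e) y - v (d + e)) + (φ e y - v e)‖ + ‖φ d (y + e) - v d‖ := norm_add_le _ _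
      _ ≤ ‖-(φ (d + e) y - v (d + e))‖ + ‖φ e y - v e‖ + ‖φ d (y + e) - v d‖ := by
        gcongr
        exact norm_add_le _ _
      _ ≤ 18 * δ := by
        rw [norm_neg]
        linarith
  have hM : 0 < N - 2 * L := by omega
  have hlin := hyers_interval (N - 2 * L) hM v (18 * δ) hadd
  refine ⟨(((N - 2 * L : ℕ) : ℝ))⁻¹ • v (N - 2 * L), ?_⟩
  -- the final step
  have c1 : Most (range N ×ˢ range L) (1 / (16 * (K : ℝ)) )
      (fun z => ‖q (z.2 + z.1) - q z.2 - q z.1‖ ≤ δ) := by
    refine ⟨(range N ×ˢ range L).filter (fun z => (z.2, z.1) ∈ S), ?_, ?_⟩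
    · rintro ⟨x, y⟩ hz hnot
      rw [mem_filter]
      refine ⟨hz, hS _ ?_ hnot⟩
      rw [mem_product, mem_range, mem_range] at hz ⊢
      simp only at hz ⊢
      omega
    · have : ((range N ×ˢ range L).filter (fun z => (z.2, z.1) ∈ S)).card ≤ S.card := by
        apply Finset.card_le_card_of_injOn (fun z => (z.2, z.1))
        · intro x hx
          have hx' : x ∈ (range N ×ˢ range L).filter (fun z => (z.2, z.1) ∈ S) := hx
          rw [mem_filter] at hx'
          exact hx'.2
        · intro x _ y _ hxy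
          have h1 := Prod.mk.inj hxy
          exact Prod.ext h1.2 h1.1
      have this' : (((range N ×ˢ range L).filter (fun z => (z.2, z.1) ∈ S)).card : ℝ) ≤ S.card := by
        exact_mod_cast this
      rw [card_product, card_range, card_range]
      push_cast
      calc _ ≤ 1 / (128 * (K : ℝ) ^ 2) * (N * N) := this'.trans hSc
        _ ≤ 1 / (128 * (K : ℝ) ^ 2) * (N * (2 * L * K)) := by gcongr
        _ = 1 / (64 * K) * (N * L) := by
          field_simp
          ring
        _ ≤ 1 / (16 * K) * (N * L) := by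
          gcongr
          norm_num
  have e64 : 1 / (16 * (K : ℝ)) = 1 / (4 * K) * (1 / 4) := by
    field_simp
    norm_num
  rw [e64] at c1
  have c2 := c1.fubini2 (by norm_num) (by positivity)
  have c3 : Most (range N) (2 / (K : ℝ)) (fun d => d ≤ N - 2 * L) := by
    refine ⟨Ico (N - 2 * L + 1) N, ?_, ?_⟩
    · intro x hx hnot
      rw [mem_range] at hx
      rw [mem_Ico]
      omega
    · rw [Nat.card_Ico, card_range]
      have h1 : ((N - (N - 2 * L + 1) : ℕ) : ℝ) ≤ 2 * L := by
        have : N - (N - 2 * L + 1) ≤ 2 * L := by omega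
        exact_mod_cast this
      calc ((N - (N - 2 * L + 1) : ℕ) : ℝ) ≤ 2 * L := h1
        _ = 2 / K * (L * K) := by
          field_simp
        _ ≤ 2 / K * N := by gcongr
  refine (c3.and c2).mono ?_ ?_
  · have : 1 / (4 * (K : ℝ)) ≤ 1 / K := by
      gcongr
      linarith
    calc 2 / (K : ℝ) + 1 / (4 * K) ≤ 2 / K + 1 / K := by linarith
      _ = 3 / K := by ring
  · intro d hd hd2
    obtain ⟨hd3, hd4⟩ := hd2
    have b1 := hv d 0 (by omega)
    have e7 : Ico 0 (0 + L) = range L := by
      ext x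
      simp
    rw [e7] at b1
    obtain ⟨y, _, hy1, hy2⟩ := (hd4.and b1).exists (by norm_num) ⟨0, by rw [mem_range]; omega⟩
    have b2 := hlin d hd3
    simp only at hy1 hy2
    have e8 : q d - (d : ℝ) • ((((N - 2 * L : ℕ) : ℝ))⁻¹ • v (N - 2 * L)) =
        -(q (y + d) - q y - q d) + (φ d y - v d) +
        (v d - (d : ℝ) • ((((N - 2 * L : ℕ) : ℝ))⁻¹ • v (N - 2 * L))) := by
      simp only [hφ]
      abel
    rw [e8]
    calc _ ≤ ‖-(q (y + d) - q y - q d) + (φ d y - v d)‖ +
          ‖v d - (d : ℝ) • ((((N - 2 * L : ℕ) : ℝ))⁻¹ • v (N - 2 * L))‖ := norm_add_le _ _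
      _ ≤ ‖-(q (y + d) - q y - q d)‖ + ‖φ d y - v d‖ +
          ‖v d - (d : ℝ) • ((((N - 2 * L : ℕ) : ℝ))⁻¹ • v (N - 2 * L))‖ := by
        gcongr
        exact norm_add_le _ _
      _ ≤ 61 * δ := by
        rw [norm_neg]
        linarith

end Pool.Agent.Helper33.RSK
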