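import Mathlib

/-! Helper33: quantifier for all but a small proportion. -/

namespace Pool.Agent.Helper33.RSK

open Finset
open scoped Classical

/-- all but a proportion `e` of the elements of `A` satisfy `p` -/
def Most {α : Type*} (A : Finset α) (e : ℝ) (p : α → Prop) : Prop :=
  ∃ S : Finset α, (∀ x ∈ A, ¬ p x → x ∈ S) ∧ (S.card : ℝ) ≤ e * A.card

section
variable {α β : Type*} {A B : Finset α} {e e' : ℝ} {p q : α → Prop}

theorem most_iff [DecidablePred p] :
    Most A e p ↔ ((A.filter (fun x => ¬ p x)).card : ℝ) ≤ e * A.card := by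
  constructor
  · rintro ⟨S, hS, hc⟩
    refine le_trans ?_ hc
    have : (A.filter (fun x => ¬ p x)).card ≤ S.card := by
      apply Finset.card_le_card
      intro x hx
      rw [mem_filter] at hx
      exact hS x hx.1 hx.2
    exact_mod_cast this
  · intro h
    exact ⟨A.filter (fun x => ¬ p x), fun x hx hp => by rw [mem_filter]; exact ⟨hx, hp⟩, h⟩

theorem Most.mono (h : Most A e p) (he : e ≤ e') (hpq : ∀ x ∈ A, p x → q x) : Most A e' q := by
  obtain ⟨S, hS, hc⟩ := h
  refine ⟨S, fun x hx hq => hS x hx (fun hp => hq (hpq x hx hp)), hc.trans ?_⟩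
  gcongr

theorem Most.and (h1 : Most A e p) (h2 : Most A e' q) : Most A (e + e') (fun x => p x ∧ q x) := by
  obtain ⟨S, hS, hc⟩ := h1
  obtain ⟨S', hS', hc'⟩ := h2
  refine ⟨S ∪ S', ?_, ?_⟩
  · intro x hx hpq
    rw [mem_union]
    by_cases hp : p x
    · exact Or.inr (hS' x hx (fun hq => hpq ⟨hp, hq⟩))
    · exact Or.inl (hS x hx hp)
  · have h3 : ((S ∪ S').card : ℝ) ≤ S.card + S'.card := by
      exact_mod_cast Finset.card_union_le _ _
    linarith

theorem Most.exists (h : Most A e p) (he : e < 1) (hA : A.Nonempty) : ∃ x ∈ A, p x := by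
  by_contra hcon
  push Not at hcon
  obtain ⟨S, hS, hc⟩ := h
  have h1 : A.card ≤ S.card := Finset.card_le_card (fun x hx => hS x hx (hcon x hx))
  have h1' : (A.card : ℝ) ≤ S.card := by exact_mod_cast h1
  have h2 : (0 : ℝ) < A.card := by exact_mod_cast hA.card_pos
  nlinarith

theorem most_of_forall (he : 0 ≤ e) (h : ∀ x ∈ A, p x) : Most A e p :=
  ⟨∅, fun x hx hp => absurd (h x hx) hp, by simp only [card_empty, Nat.cast_zero]; positivity⟩

/-- pull back along an injective map with a comparison of sizes -/
theorem Most.inj {T : Finset β} (h : Most A e p) (f : β → α) (hf : ∀ x ∈ T, f x ∈ A)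
    (hinj : Set.InjOn f T) {c : ℝ} (hc : (A.card : ℝ) ≤ c * T.card) (he : 0 ≤ e) :
    Most T (e * c) (fun x => p (f x)) := by
  obtain ⟨S, hS, hSc⟩ := h
  refine ⟨T.filter (fun x => f x ∈ S), ?_, ?_⟩
  · intro x hx hp
    rw [mem_filter]
    exact ⟨hx, hS (f x) (hf x hx) hp⟩
  · have h1 : (T.filter (fun x => f x ∈ S)).card ≤ S.card := by
      apply Finset.card_le_card_of_injOn f
      · intro x hx
        have hx' : x ∈ T.filter (fun x => f x ∈ S) := hx
        rw [mem_filter] at hx'
        exact hx'.2
      · intro x hx y hy hxy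
        have hx' : x ∈ T.filter (fun x => f x ∈ S) := hx
        have hy' : y ∈ T.filter (fun x => f x ∈ S) := hy
        rw [mem_filter] at hx' hy'
        exact hinj hx'.1 hy'.1 hxy
    have h2 : ((T.filter (fun x => f x ∈ S)).card : ℝ) ≤ S.card := by exact_mod_cast h1
    calc ((T.filter (fun x => f x ∈ S)).card : ℝ) ≤ e * A.card := h2.trans hSc
      _ ≤ e * (c * T.card) := by gcongr
      _ = e * c * T.card := by ring

theorem Most.sub (h : Most A e p) (hBA : B ⊆ A) {c : ℝ} (hc : (A.card : ℝ) ≤ c * B.card)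
    (he : 0 ≤ e) : Most B (e * c) p :=
  h.inj (fun x => x) (fun _ hx => hBA hx) (fun _ _ _ _ h => h) hc he

/-- bijective reindexing -/
theorem Most.equiv {T : Finset β} (h : Most A e p) (f : β → α) (hf : ∀ x ∈ T, f x ∈ A)
    (hinj : Set.InjOn f T) (hc : A.card ≤ T.card) (he : 0 ≤ e) :
    Most T e (fun x => p (f x)) := by
  have := h.inj f hf hinj (c := 1) (by rw [one_mul]; exact_mod_cast hc) he
  rwa [mul_one] at this

theorem Most.superset (h : Most B e p) (hBA : B ⊆ A) {c : ℝ}
    (hc : ((A \ B).card : ℝ) ≤ c * A.card) (he : 0 ≤ e) : Most A (e + c) p := by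
  obtain ⟨S, hS, hSc⟩ := h
  refine ⟨S ∪ (A \ B), ?_, ?_⟩
  · intro x hx hp
    rw [mem_union, mem_sdiff]
    by_cases hb : x ∈ B
    · exact Or.inl (hS x hb hp)
    · exact Or.inr ⟨hx, hb⟩
  · have h2 : ((S ∪ (A \ B)).card : ℝ) ≤ S.card + (A \ B).card := by
      exact_mod_cast Finset.card_union_le _ _
    have h3 : (B.card : ℝ) ≤ A.card := by exact_mod_cast Finset.card_le_card hBA
    nlinarith

end

section
variable {α β : Type*} {A : Finset α} {B : Finset β} {e e' : ℝ}

theorem Most.fubini2 {p : α × β → Prop} (h : Most (A ×ˢ B) (e' * e) p) (he : 0 < e)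
    (he1 : 0 ≤ e') : Most A e' (fun x => Most B e (fun y => p (x, y))) := by
  obtain ⟨S, hS, hSc⟩ := h
  rw [card_product] at hSc
  push_cast at hSc
  by_cases hB : B.card = 0
  · apply most_of_forall he1
    intro x _
    have : B = ∅ := Finset.card_eq_zero.mp hB
    rw [this]
    exact most_of_forall he.le (by simp)
  have hB' : (0 : ℝ) < B.card := by
    exact_mod_cast Nat.pos_of_ne_zero hB
  -- bad rows
  refine ⟨A.filter (fun x => e * B.card < ((B.filter (fun y => (x, y) ∈ S)).card : ℝ)), ?_, ?_⟩
  · intro x hx hp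
    rw [mem_filter]
    refine ⟨hx, ?_⟩
    by_contra hcon
    push Not at hcon
    apply hp
    refine ⟨B.filter (fun y => (x, y) ∈ S), ?_, hcon⟩
    intro y hy hpy
    rw [mem_filter]
    exact ⟨hy, hS (x, y) (by rw [mem_product]; exact ⟨hx, hy⟩) hpy⟩
  · set R := A.filter (fun x => e * B.card < ((B.filter (fun y => (x, y) ∈ S)).card : ℝ)) with hR
    have h1 : (R.card : ℝ) * (e * B.card) ≤ S.card := by
      have h2 : ((R ×ˢ B).filter (fun z => z ∈ S)).card =
          ∑ x ∈ R, (B.filter (fun y => (x, y) ∈ S)).card := by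
        rw [Finset.card_filter, Finset.sum_product]
        apply Finset.sum_congr rfl
        intro x _
        rw [Finset.card_filter]
      have h3 : ((R ×ˢ B).filter (fun z => z ∈ S)).card ≤ S.card := by
        apply Finset.card_le_card
        intro z hz
        rw [mem_filter] at hz
        exact hz.2
      calc (R.card : ℝ) * (e * B.card) = ∑ x ∈ R, e * B.card := by
            rw [Finset.sum_const, nsmul_eq_mul]
        _ ≤ ∑ x ∈ R, ((B.filter (fun y => (x, y) ∈ S)).card : ℝ) := by
            apply Finset.sum_le_sum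
            intro x hx
            rw [hR, mem_filter] at hx
            exact hx.2.le
        _ = (((R ×ˢ B).filter (fun z => z ∈ S)).card : ℝ) := by
            rw [h2]
            push_cast
            rfl
        _ ≤ S.card := by exact_mod_cast h3
    have h4 : (R.card : ℝ) * (e * B.card) ≤ (e' * A.card) * (e * B.card) := by
      calc _ ≤ _ := h1
        _ ≤ _ := hSc
        _ = _ := by ring
    exact le_of_mul_le_mul_right h4 (by positivity)

theorem Most.fubini {p : α × β → Prop} (h : Most (A ×ˢ B) (e * e) p) (he : 0 < e) :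
    Most A e (fun x => Most B e (fun y => p (x, y))) := h.fubini2 he he.le

theorem Most.swap {p : α × β → Prop} (h : Most (A ×ˢ B) e p) (he : 0 ≤ e) :
    Most (B ×ˢ A) e (fun z => p (z.2, z.1)) := by
  refine h.equiv (fun z : β × α => (z.2, z.1)) ?_ ?_ ?_ he
  · intro z hz
    rw [mem_product] at hz ⊢
    exact ⟨hz.2, hz.1⟩
  · intro x _ y _ hxy
    have h1 := Prod.mk.inj hxy
    exact Prod.ext h1.2 h1.1
  · rw [card_product, card_product, mul_comm]

theorem Most.fubini' {p : α × β → Prop} (h : Most (A ×ˢ B) (e * e) p) (he : 0 < e) :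
    Most B e (fun y => Most A e (fun x => p (x, y))) :=
  (h.swap (by positivity)).fubini he

theorem Most.fubini2' {p : α × β → Prop} (h : Most (A ×ˢ B) (e' * e) p) (he : 0 < e)
    (he1 : 0 ≤ e') : Most B e' (fun y => Most A e (fun x => p (x, y))) :=
  (h.swap (by positivity)).fubini2 he he1

theorem Most.prod {p : α × β → Prop} (h : Most A e (fun x => Most B e' (fun y => p (x, y))))
    (he' : 0 ≤ e') : Most (A ×ˢ B) (e + e') p := by
  obtain ⟨S, hS, hSc⟩ := h
  rw [most_iff, card_product]
  push_cast
  have h1 : ((A ×ˢ B).filter (fun x => ¬ p x)).card =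
      ∑ x ∈ A, (B.filter (fun y => ¬ p (x, y))).card := by
    rw [Finset.card_filter, Finset.sum_product]
    apply Finset.sum_congr rfl
    intro x _
    rw [Finset.card_filter]
  rw [h1]
  push_cast
  have h2 : ∀ x ∈ A, ((B.filter (fun y => ¬ p (x, y))).card : ℝ) ≤
      e' * B.card + (if x ∈ S then (B.card : ℝ) else 0) := by
    intro x hx
    by_cases hxS : x ∈ S
    · rw [if_pos hxS]
      have : ((B.filter (fun y => ¬ p (x, y))).card : ℝ) ≤ B.card := by
        exact_mod_cast Finset.card_filter_le _ _
      have h0 : 0 ≤ e' * (B.card : ℝ) := by positivity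
      linarith
    · rw [if_neg hxS, add_zero]
      have : Most B e' (fun y => p (x, y)) := by
        by_contra hcon
        exact hxS (hS x hx hcon)
      exact most_iff.mp this
  have h3 : ((A.filter (fun x => x ∈ S)).card : ℝ) ≤ S.card := by
    have : (A.filter (fun x => x ∈ S)).card ≤ S.card := by
      apply Finset.card_le_card
      intro z hz
      rw [mem_filter] at hz
      exact hz.2
    exact_mod_cast this
  calc ∑ x ∈ A, ((B.filter (fun y => ¬ p (x, y))).card : ℝ)
      ≤ ∑ x ∈ A, (e' * B.card + (if x ∈ S then (B.card : ℝ) else 0)) :=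
        Finset.sum_le_sum h2
    _ = A.card * (e' * B.card) + (A.filter (fun x => x ∈ S)).card * B.card := by
        rw [Finset.sum_add_distrib, Finset.sum_const, nsmul_eq_mul, ← Finset.sum_filter,
          Finset.sum_const, nsmul_eq_mul]
    _ ≤ A.card * (e' * B.card) + (e * A.card) * B.card := by
        have := h3.trans hSc
        gcongr
    _ = (e + e') * (A.card * B.card) := by ring

/-- finite conjunctions -/
theorem Most.forall {ι : Type*} (I : Finset ι) {p : ι → α → Prop}
    (h : ∀ i ∈ I, Most A e (p i)) :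
    Most A (I.card * e) (fun x => ∀ i ∈ I, p i x) := by
  induction I using Finset.induction_on with
  | empty =>
    apply most_of_forall
    · simp
    · intro x _ i hi
      simp at hi
  | insert a I ha ih =>
    have h1 := (h a (mem_insert_self a I)).and (ih (fun i hi => h i (mem_insert_of_mem hi)))
    rw [card_insert_of_notMem ha]
    refine h1.mono (le_of_eq ?_) ?_
    · push_cast
      ring
    · intro x _ hx i hi
      rw [mem_insert] at hi
      rcases hi with rfl | hi
      · exact hx.1
      · exact hx.2 i hi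

end

end Pool.Agent.Helper33.RSK
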