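import Pool.Agent.Helper33.RSK.Add

/-! Helper33: 99 percent multiadditive functions are close to multilinear ones. -/

namespace Pool.Agent.Helper33.RSK

open Finset
open scoped Classical

universe u

variable {E : Type u} [NormedAddCommGroup E] [NormedSpace ℝ E]

/-- the box `[0,N)^k` -/
def box (k N : ℕ) : Finset (Fin k → ℕ) := Fintype.piFinset (fun _ => range N)

theorem mem_box {k N : ℕ} {x : Fin k → ℕ} : x ∈ box k N ↔ ∀ i, x i < N := by
  simp [box, Fintype.mem_piFinset]

theorem card_box (k N : ℕ) : (box k N).card = N ^ k := by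
  simp [box, Fintype.card_piFinset]

theorem most_cons {k N : ℕ} {e : ℝ} {p : (Fin (k + 1) → ℕ) → Prop} (he : 0 ≤ e)
    (h : Most (box (k + 1) N) e p) :
    Most (range N ×ˢ box k N) e (fun z => p (Fin.cons z.1 z.2)) := by
  refine h.equiv (fun z : ℕ × (Fin k → ℕ) => (Fin.cons z.1 z.2 : Fin (k + 1) → ℕ)) ?_ ?_ ?_ he
  · intro z hz
    rw [mem_product, mem_range, mem_box] at hz
    rw [mem_box]
    intro i
    refine Fin.cases ?_ ?_ i
    · simpa using hz.1
    · intro j
      simpa using hz.2 j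
  · intro x _ y _ hxy
    have := Fin.cons_inj.mp hxy
    exact Prod.ext this.1 this.2
  · rw [card_box, card_product, card_range, card_box, pow_succ, mul_comm]

theorem most_of_cons {k N : ℕ} {e : ℝ} {p : (Fin (k + 1) → ℕ) → Prop} (he : 0 ≤ e)
    (h : Most (range N ×ˢ box k N) e (fun z => p (Fin.cons z.1 z.2))) :
    Most (box (k + 1) N) e p := by
  have h1 := h.equiv (T := box (k + 1) N) (fun x : Fin (k + 1) → ℕ => (x 0, Fin.tail x)) ?_ ?_ ?_ he
  · refine h1.mono le_rfl ?_
    intro x _ hx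
    simpa using hx
  · intro x hx
    rw [mem_box] at hx
    rw [mem_product, mem_range, mem_box]
    exact ⟨hx 0, fun i => hx i.succ⟩
  · intro x _ y _ hxy
    have h2 := Prod.mk.inj hxy
    rw [← Fin.cons_self_tail x, ← Fin.cons_self_tail y, h2.1, h2.2]
  · rw [card_box, card_product, card_range, card_box, pow_succ, mul_comm]

/-- 99 percent multiadditive functions -/
theorem multi_add (k : ℕ) : ∀ e' : ℝ, 0 < e' → ∃ e : ℝ, 0 < e ∧ ∃ C : ℝ, 0 ≤ C ∧ ∃ N0 : ℕ,
    ∀ N ≥ N0, ∀ (F : (Fin k → ℕ) → E) (δ : ℝ), 0 ≤ δ →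
    (∀ i, Most (box k N ×ˢ range N) e (fun z =>
      ‖F (Function.update z.1 i (z.1 i + z.2)) - F z.1 - F (Function.update z.1 i z.2)‖ ≤ δ)) →
    ∃ lam : E, Most (box k N) e' (fun x => ‖F x - (∏ i, (x i : ℝ)) • lam‖ ≤ C * δ) := by
  induction k with
  | zero =>
    intro e' he'
    refine ⟨1, by norm_num, 0, le_rfl, 0, ?_⟩
    intro N _ F δ _ _
    refine ⟨F 0, ?_⟩
    apply most_of_forall he'.le
    intro x _
    have : x = 0 := by
      funext i
      exact i.elim0
    rw [this]
    simp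
  | succ k ih =>
    intro e' he'
    -- parameters
    obtain ⟨a, ha⟩ : ∃ a : ℝ, a = min (e' / 8) (1 / 16) := ⟨_, rfl⟩
    have ha0 : 0 < a := by
      rw [ha]
      positivity
    have ha1 : a ≤ 1 / 16 := by
      rw [ha]
      exact min_le_right _ _
    have ha2 : a ≤ e' / 8 := by
      rw [ha]
      exact min_le_left _ _
    obtain ⟨e1, he1, C1, hC1, N1, h1⟩ := ih a ha0
    obtain ⟨K, hK⟩ := exists_nat_gt (3 / a ^ 2 + 3)
    have ha3 : 0 < 3 / a ^ 2 := by positivity
    have hK3 : 3 ≤ K := by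
      have : (3 : ℝ) < K := by linarith
      exact_mod_cast this.le
    have hKr : (3 : ℝ) ≤ K := by exact_mod_cast hK3
    have hKa : 3 / (K : ℝ) ≤ a ^ 2 := by
      have h2 : 3 / a ^ 2 ≤ K := by linarith
      rw [div_le_iff₀ (by positivity)] at h2
      rw [div_le_iff₀ (by linarith)]
      linarith
    obtain ⟨eA, heA⟩ : ∃ eA : ℝ, eA = 1 / (128 * (K : ℝ) ^ 2) := ⟨_, rfl⟩
    have heA0 : 0 < eA := by
      rw [heA]
      positivity
    obtain ⟨e, he⟩ : ∃ e : ℝ, e = min (a ^ 2 * eA) (1 / (16 * (k + 1)) * e1) := ⟨_, rfl⟩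
    have he0 : 0 < e := by
      rw [he]
      positivity
    have heL : e ≤ a ^ 2 * eA := by
      rw [he]
      exact min_le_left _ _
    have heR : e ≤ 1 / (16 * (k + 1)) * e1 := by
      rw [he]
      exact min_le_right _ _
    refine ⟨e, he0, 183 + 2 * C1, by positivity, max (max N1 K) 4, ?_⟩
    intro N hN F δ hδ hF
    have hNN1 : N1 ≤ N := (le_max_left _ _).trans ((le_max_left _ _).trans hN)
    have hNK : K ≤ N := (le_max_right _ _).trans ((le_max_left _ _).trans hN)
    have hN4 : 4 ≤ N := (le_max_right _ _).trans hN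
    have hN4r : (4 : ℝ) ≤ N := by exact_mod_cast hN4
    -- coordinate 0
    have c0 : Most (box k N ×ˢ (range N ×ˢ range N)) (a ^ 2 * eA) (fun z =>
        ‖F (Fin.cons (z.2.1 + z.2.2) z.1) - F (Fin.cons z.2.1 z.1) - F (Fin.cons z.2.2 z.1)‖
          ≤ δ) := by
      have h2 := (hF 0).equiv (T := box k N ×ˢ (range N ×ˢ range N))
        (fun z => ((Fin.cons z.2.1 z.1 : Fin (k + 1) → ℕ), z.2.2)) ?_ ?_ ?_ he0.le
      · refine h2.mono heL ?_
        rintro ⟨σ, x, b⟩ _ hz
        simpa using hz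
      · rintro ⟨σ, x, b⟩ hz
        rw [mem_product, mem_product, mem_range, mem_range, mem_box] at hz
        rw [mem_product, mem_range, mem_box]
        refine ⟨?_, hz.2.2⟩
        intro i
        refine Fin.cases ?_ ?_ i
        · simpa using hz.2.1
        · intro j
          simpa using hz.1 j
      · rintro ⟨σ, x, b⟩ _ ⟨σ', x', b'⟩ _ hxy
        have h3 := Prod.mk.inj hxy
        have h4 := Fin.cons_inj.mp h3.1
        have h5 := h3.2
        have h6 := h4.1
        have h7 := h4.2
        simp only at h5 h6 h7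
        rw [h5, h6, h7]
      · rw [card_product, card_product, card_product, card_range, card_box, card_box, pow_succ]
        exact le_of_eq (by ring)
    have c1 := c0.fubini2 heA0 (by positivity)
    have c2 : ∀ σ : Fin k → ℕ, ∃ lam : E,
        Most (range N ×ˢ range N) eA (fun z =>
          ‖F (Fin.cons (z.1 + z.2) σ) - F (Fin.cons z.1 σ) - F (Fin.cons z.2 σ)‖ ≤ δ) →
        Most (range N) (a ^ 2) (fun x => ‖F (Fin.cons x σ) - (x : ℝ) • lam‖ ≤ 61 * δ) := by
      intro σ
      by_cases hσ : Most (range N ×ˢ range N) eA (fun z =>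
          ‖F (Fin.cons (z.1 + z.2) σ) - F (Fin.cons z.1 σ) - F (Fin.cons z.2 σ)‖ ≤ δ)
      · rw [heA] at hσ
        obtain ⟨lam, hlam⟩ := add_most K hK3 N hNK (fun x => F (Fin.cons x σ)) δ hσ
        exact ⟨lam, fun _ => hlam.mono hKa (fun _ _ h => h)⟩
      · exact ⟨0, fun h => absurd h hσ⟩
    choose lam hlam using c2
    have c3 : Most (box k N) (a ^ 2) (fun σ => Most (range N) (a ^ 2)
        (fun x => ‖F (Fin.cons x σ) - (x : ℝ) • lam σ‖ ≤ 61 * δ)) :=
      c1.mono le_rfl (fun σ _ hσ => hlam σ hσ)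
    have c4 : Most (range N) (2 * a) (fun x => Most (box k N) a
        (fun σ => ‖F (Fin.cons x σ) - (x : ℝ) • lam σ‖ ≤ 61 * δ)) := by
      have h2 := Most.prod (p := fun z : (Fin k → ℕ) × ℕ =>
        ‖F (Fin.cons z.2 z.1) - (z.2 : ℝ) • lam z.1‖ ≤ 61 * δ) c3 (by positivity)
      have h3 : a ^ 2 + a ^ 2 = 2 * a * a := by ring
      rw [h3] at h2
      exact h2.fubini2' ha0 (by positivity)
    -- other coordinates
    have c5 : Most (range N) (1 / 16) (fun x => ∀ i ∈ (univ : Finset (Fin k)),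
        Most (box k N ×ˢ range N) e1 (fun z =>
          ‖F (Fin.cons x (Function.update z.1 i (z.1 i + z.2))) - F (Fin.cons x z.1) -
            F (Fin.cons x (Function.update z.1 i z.2))‖ ≤ δ)) := by
      have h2 : ∀ i ∈ (univ : Finset (Fin k)), Most (range N) (1 / (16 * (k + 1))) (fun x =>
        Most (box k N ×ˢ range N) e1 (fun z =>
          ‖F (Fin.cons x (Function.update z.1 i (z.1 i + z.2))) - F (Fin.cons x z.1) -
            F (Fin.cons x (Function.update z.1 i z.2))‖ ≤ δ)) := by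
        intro i _
        have h3 := (hF i.succ).equiv (T := range N ×ˢ (box k N ×ˢ range N))
          (fun z => ((Fin.cons z.1 z.2.1 : Fin (k + 1) → ℕ), z.2.2)) ?_ ?_ ?_ he0.le
        · have h4 := (h3.mono heR (fun _ _ h => h)).fubini2 he1 (by positivity)
          refine h4.mono le_rfl ?_
          intro x _ hx
          refine hx.mono le_rfl ?_
          rintro ⟨σ, b⟩ _ hz
          rw [Fin.cons_update, Fin.cons_update]
          simpa using hz
        · rintro ⟨x, σ, b⟩ hz
          rw [mem_product, mem_product, mem_range, mem_range, mem_box] at hz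
          rw [mem_product, mem_range, mem_box]
          refine ⟨?_, hz.2.2⟩
          intro i
          refine Fin.cases ?_ ?_ i
          · simpa using hz.1
          · intro j
            simpa using hz.2.1 j
        · rintro ⟨x, σ, b⟩ _ ⟨x', σ', b'⟩ _ hxy
          have h3 := Prod.mk.inj hxy
          have h4 := Fin.cons_inj.mp h3.1
          have h5 := h3.2
          have h6 := h4.1
          have h7 := h4.2
          simp only at h5 h6 h7
          rw [h5, h6, h7]
        · rw [card_product, card_product, card_product, card_range, card_box, card_box, pow_succ]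
          exact le_of_eq (by ring)
      refine (Most.forall univ h2).mono ?_ (fun _ _ h => h)
      rw [card_univ, Fintype.card_fin]
      have hk0 : (0 : ℝ) ≤ k := by positivity
      rw [mul_one_div, div_le_div_iff₀ (by positivity) (by norm_num)]
      linarith
    have c6 : Most (range N) (5 / 8) (fun x => N ≤ 2 * x) := by
      refine ⟨range ((N + 1) / 2), ?_, ?_⟩
      · intro x _ hx
        rw [mem_range]
        omega
      · rw [card_range, card_range]
        have h2 : (((N + 1) / 2 : ℕ) : ℝ) ≤ (N + 1) / 2 := by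
          have := @Nat.cast_div_le ℝ _ _ _ (N + 1) 2
          push_cast at this
          exact this
        linarith
    obtain ⟨s, hsN, ⟨hs1, hs2⟩, hs3⟩ := ((c4.and c5).and c6).exists (by linarith)
      ⟨0, by rw [mem_range]; omega⟩
    rw [mem_range] at hsN
    obtain ⟨μ, hμ⟩ := h1 N hNN1 (fun σ => F (Fin.cons s σ)) δ hδ (fun i => hs2 i (mem_univ i))
    have hs0 : (0 : ℝ) < s := by
      have : 0 < s := by omega
      exact_mod_cast this
    have hsN2 : (N : ℝ) ≤ 2 * s := by exact_mod_cast hs3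
    refine ⟨(s : ℝ)⁻¹ • μ, ?_⟩
    apply most_of_cons he'.le
    have c7 : Most (box k N) (a + a + a ^ 2) (fun σ => Most (range N) (a ^ 2) (fun x =>
        ‖F (Fin.cons x σ) - ((x : ℝ) * ∏ i, (σ i : ℝ)) • ((s : ℝ)⁻¹ • μ)‖ ≤
          (183 + 2 * C1) * δ)) := by
      refine ((hs1.and hμ).and c3).mono le_rfl ?_
      rintro σ _ ⟨⟨hσ1, hσ2⟩, hσ3⟩
      refine hσ3.mono le_rfl ?_
      intro x hx hxx
      rw [mem_range] at hx
      have hxN : (x : ℝ) ≤ 2 * s := by
        have : (x : ℝ) ≤ N := by exact_mod_cast hx.le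
        linarith
      have h5 : F (Fin.cons x σ) - ((x : ℝ) * ∏ i, (σ i : ℝ)) • ((s : ℝ)⁻¹ • μ) =
          (F (Fin.cons x σ) - (x : ℝ) • lam σ) + ((x : ℝ) / s) •
            ((F (Fin.cons s σ) - (∏ i, (σ i : ℝ)) • μ) - (F (Fin.cons s σ) - (s : ℝ) • lam σ)) := by
        have h6 : ((x : ℝ) / s) * s = x := by
          field_simp
        have h7 : ((x : ℝ) / s) • ((s : ℝ) • lam σ) = (x : ℝ) • lam σ := by
          rw [smul_smul, h6]
        have h8 : ((x : ℝ) * ∏ i, (σ i : ℝ)) • ((s : ℝ)⁻¹ • μ) =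
            ((x : ℝ) / s) • ((∏ i, (σ i : ℝ)) • μ) := by
          rw [smul_smul, smul_smul]
          congr 1
          ring
        rw [h8, smul_sub, smul_sub, smul_sub, h7]
        abel
      rw [h5]
      have h9 : ‖(F (Fin.cons s σ) - (∏ i, (σ i : ℝ)) • μ) - (F (Fin.cons s σ) - (s : ℝ) • lam σ)‖
          ≤ (61 + C1) * δ := by
        refine (norm_sub_le _ _).trans ?_
        linarith
      have h10 : (x : ℝ) / s ≤ 2 := by
        rw [div_le_iff₀ hs0]
        exact hxN
      have h11 : 0 ≤ (x : ℝ) / s := by positivity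
      calc _ ≤ ‖F (Fin.cons x σ) - (x : ℝ) • lam σ‖ + ‖((x : ℝ) / s) •
            ((F (Fin.cons s σ) - (∏ i, (σ i : ℝ)) • μ) -
              (F (Fin.cons s σ) - (s : ℝ) • lam σ))‖ := norm_add_le _ _
        _ ≤ 61 * δ + 2 * ((61 + C1) * δ) := by
          rw [norm_smul, Real.norm_of_nonneg h11]
          have h12 := norm_nonneg ((F (Fin.cons s σ) - (∏ i, (σ i : ℝ)) • μ) -
              (F (Fin.cons s σ) - (s : ℝ) • lam σ))
          have h13 : (x : ℝ) / s * ‖(F (Fin.cons s σ) - (∏ i, (σ i : ℝ)) • μ) -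
              (F (Fin.cons s σ) - (s : ℝ) • lam σ)‖ ≤ 2 * ((61 + C1) * δ) := by
            calc _ ≤ 2 * ‖(F (Fin.cons s σ) - (∏ i, (σ i : ℝ)) • μ) -
              (F (Fin.cons s σ) - (s : ℝ) • lam σ)‖ := by gcongr
              _ ≤ 2 * ((61 + C1) * δ) := by gcongr
          linarith
        _ = (183 + 2 * C1) * δ := by ring
    have c8 := (Most.prod (p := fun z : (Fin k → ℕ) × ℕ =>
      ‖F (Fin.cons z.2 z.1) - ((z.2 : ℝ) * ∏ i, (z.1 i : ℝ)) • ((s : ℝ)⁻¹ • μ)‖ ≤
          (183 + 2 * C1) * δ) c7 (by positivity)).swap (by positivity)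
    refine c8.mono ?_ ?_
    · nlinarith
    · rintro ⟨x, σ⟩ _ hz
      simp only [Fin.prod_univ_succ, Fin.cons_zero, Fin.cons_succ]
      exact hz

end Pool.Agent.Helper33.RSK
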